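import Pool.Agent.Helper4.CI.Goals

/-!
# Piece S3 (MP_aa7fc1_ag): the sum over the completions
-/

namespace Mono.CI.S3

open Finset Mono Mono.CI

section Comb

variable {α κ : Type*} [DecidableEq α] [DecidableEq κ]

/-- Sum over the sets with one element of each colour of `m`. -/
theorem sum_transversal (V : Finset α) (col : α → κ) (m : Finset κ) (f : α → ℝ) :
    ∑ σ ∈ V.powerset.filter (fun σ => σ.image col = m ∧ σ.card = m.card), ∏ u ∈ σ, f u =
      ∏ c ∈ m, ∑ u ∈ V.filter (fun u => col u = c), f u := by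
  rw [Finset.prod_sum]
  symm
  have hp : ∀ p ∈ m.pi (fun c => V.filter (fun u => col u = c)), ∀ x : {x // x ∈ m},
      p x.1 x.2 ∈ V ∧ col (p x.1 x.2) = x.1 := by
    intro p hp x
    have := Finset.mem_pi.1 hp x.1 x.2
    exact Finset.mem_filter.1 this
  have hinj : ∀ p ∈ m.pi (fun c => V.filter (fun u => col u = c)),
      Function.Injective (fun x : {x // x ∈ m} => p x.1 x.2) := by
    intro p hpm x y hxy
    have h1 := (hp p hpm x).2
    have h2 := (hp p hpm y).2
    apply Subtype.ext
    rw [← h1, ← h2]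
    exact congrArg col hxy
  refine Finset.sum_bij (fun p _ => m.attach.image (fun x => p x.1 x.2)) ?_ ?_ ?_ ?_
  · intro p hpm
    rw [Finset.mem_filter, Finset.mem_powerset]
    refine ⟨?_, ?_, ?_⟩
    · intro u hu
      obtain ⟨x, -, rfl⟩ := Finset.mem_image.1 hu
      exact (hp p hpm x).1
    · rw [Finset.image_image]
      ext c
      rw [Finset.mem_image]
      constructor
      · rintro ⟨x, -, rfl⟩
        have := (hp p hpm x).2
        rw [Function.comp_apply, this]
        exact x.2
      · intro hc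
        exact ⟨⟨c, hc⟩, Finset.mem_attach _ _, (hp p hpm ⟨c, hc⟩).2⟩
    · rw [Finset.card_image_of_injective _ (hinj p hpm), Finset.card_attach]
  · intro p hpm q hqm hpq
    funext c hc
    have h1 : p c hc ∈ m.attach.image (fun x => q x.1 x.2) := by
      rw [← hpq]
      exact Finset.mem_image.2 ⟨⟨c, hc⟩, Finset.mem_attach _ _, rfl⟩
    obtain ⟨y, -, hy⟩ := Finset.mem_image.1 h1
    have h2 := (hp p hpm ⟨c, hc⟩).2
    have h3 := (hp q hqm y).2
    have h4 : y = ⟨c, hc⟩ := by
      apply Subtype.ext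
      rw [← h3, ← h2]
      exact congrArg col hy
    rw [← hy, h4]
  · intro σ hσ
    rw [Finset.mem_filter, Finset.mem_powerset] at hσ
    obtain ⟨hσV, hσc, hσn⟩ := hσ
    have hch : ∀ c ∈ m, ∃ u ∈ σ, col u = c := by
      intro c hc
      rw [← hσc] at hc
      obtain ⟨u, hu, huc⟩ := Finset.mem_image.1 hc
      exact ⟨u, hu, huc⟩
    choose p hpσ hpc using hch
    have hpm : p ∈ m.pi (fun c => V.filter (fun u => col u = c)) := by
      rw [Finset.mem_pi]
      intro c hc
      exact Finset.mem_filter.2 ⟨hσV (hpσ c hc), hpc c hc⟩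
    refine ⟨p, hpm, ?_⟩
    apply Finset.eq_of_subset_of_card_le
    · intro u hu
      obtain ⟨x, -, rfl⟩ := Finset.mem_image.1 hu
      exact hpσ x.1 x.2
    · rw [Finset.card_image_of_injective _ (hinj p hpm), Finset.card_attach, hσn]
  · intro p hpm
    rw [Finset.prod_image]
    intro x _ y _ hxy
    exact hinj p hpm hxy

/-- Sum over the completions, abstractly. -/
theorem sum_completions [Fintype κ] (V ρ : Finset α) (hρ : ρ ⊆ V) (col : α → κ) (f : α → ℝ) :
    ∑ τ ∈ V.powerset.filter (fun τ => ρ ⊆ τ ∧ τ.image col = univ ∧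
        τ.card + (ρ.image col).card = ρ.card + Fintype.card κ), ∏ u ∈ τ \ ρ, f u =
      ∏ c ∈ univ \ ρ.image col, ∑ u ∈ V.filter (fun u => col u = c), f u := by
  rw [← sum_transversal]
  set m : Finset κ := univ \ ρ.image col with hm
  have hmcard : m.card + (ρ.image col).card = Fintype.card κ := by
    rw [hm, Finset.card_sdiff_add_card_eq_card (Finset.subset_univ _), Finset.card_univ]
  refine Finset.sum_bij' (fun τ _ => τ \ ρ) (fun σ _ => ρ ∪ σ) ?_ ?_ ?_ ?_ ?_
  · intro τ hτ
    rw [Finset.mem_filter, Finset.mem_powerset] at hτ ⊢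
    obtain ⟨hτV, hρτ, hcol, hcard⟩ := hτ
    have h1 : (τ \ ρ).card + ρ.card = τ.card := Finset.card_sdiff_add_card_eq_card hρτ
    have h2 : (τ \ ρ).card = m.card := by omega
    have h3 : m ⊆ (τ \ ρ).image col := by
      intro c hc
      have hcu : c ∈ τ.image col := by
        rw [hcol]
        exact Finset.mem_univ c
      obtain ⟨u, hu, huc⟩ := Finset.mem_image.1 hcu
      refine Finset.mem_image.2 ⟨u, Finset.mem_sdiff.2 ⟨hu, fun huρ => ?_⟩, huc⟩
      rw [hm, Finset.mem_sdiff] at hc
      exact hc.2 (Finset.mem_image.2 ⟨u, huρ, huc⟩)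
    refine ⟨Finset.sdiff_subset.trans hτV, ?_, h2⟩
    symm
    apply Finset.eq_of_subset_of_card_le h3
    rw [← h2]
    exact Finset.card_image_le
  · intro σ hσ
    rw [Finset.mem_filter, Finset.mem_powerset] at hσ ⊢
    obtain ⟨hσV, hcol, hcard⟩ := hσ
    have hdisj : Disjoint ρ σ := by
      rw [Finset.disjoint_left]
      intro u hu hu'
      have h1 : col u ∈ m := by
        rw [← hcol]
        exact Finset.mem_image_of_mem col hu'
      rw [hm, Finset.mem_sdiff] at h1
      exact h1.2 (Finset.mem_image_of_mem col hu)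
    refine ⟨Finset.union_subset hρ hσV, Finset.subset_union_left, ?_, ?_⟩
    · rw [Finset.image_union, hcol, hm]
      exact Finset.union_sdiff_of_subset (Finset.subset_univ _)
    · rw [Finset.card_union_of_disjoint hdisj, hcard]
      omega
  · intro τ hτ
    rw [Finset.mem_filter] at hτ
    exact Finset.union_sdiff_of_subset hτ.2.1
  · intro σ hσ
    rw [Finset.mem_filter, Finset.mem_powerset] at hσ
    obtain ⟨hσV, hcol, hcard⟩ := hσ
    have hdisj : Disjoint ρ σ := by
      rw [Finset.disjoint_left]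
      intro u hu hu'
      have h1 : col u ∈ m := by
        rw [← hcol]
        exact Finset.mem_image_of_mem col hu'
      rw [hm, Finset.mem_sdiff] at h1
      exact h1.2 (Finset.mem_image_of_mem col hu)
    exact Finset.union_sdiff_cancel_left hdisj
  · intro τ _
    rfl

end Comb

variable {N k : ℕ}

theorem ind_inj : Function.Injective (ind : Option (Fin k) → Fin k → ℤ) := by
  intro c c' h
  cases c with
  | none =>
    cases c' with
    | none => rfl
    | some j =>
      have := congrFun h j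
      simp [ind] at this
  | some j =>
    cases c' with
    | none =>
      have := congrFun h j
      simp [ind] at this
    | some j' =>
      have := congrFun h j
      simp only [ind, if_pos] at this
      by_contra hne
      rw [if_neg (fun h' => hne (by rw [h'])) ] at this
      exact absurd this (by norm_num)

/-- the `z`-part -/
def zp (v : Fin (N + k) → ℤ) : Fin k → ℤ := fun j => v (Fin.natAdd N j)

/-- the colour of a vector -/
noncomputable def colr (v : Fin (N + k) → ℤ) : Option (Fin k) := Function.invFun ind (zp v)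

theorem zp_lift (c : Option (Fin k)) (u : Fin N → ℤ) : zp (lift c u) = ind c := by
  funext j
  simp [zp, lift]

theorem colr_of {v : Fin (N + k) → ℤ} {c : Option (Fin k)} (h : ∀ j, v (Fin.natAdd N j) = ind c j) :
    colr v = c := by
  have h1 : zp v = ind c := funext h
  rw [colr, h1]
  exact Function.leftInverse_invFun ind_inj c

theorem mem_cay {φ : Option (Fin k) → Finset (Fin N → ℤ)} {C : Finset (Option (Fin k))}
    {v : Fin (N + k) → ℤ} : v ∈ cay φ C ↔ ∃ c ∈ C, ∃ u ∈ φ c, lift c u = v := by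
  simp only [cay, Finset.mem_biUnion, Finset.mem_image]

theorem colr_iff {φ : Option (Fin k) → Finset (Fin N → ℤ)} {v : Fin (N + k) → ℤ}
    (hv : v ∈ cay φ univ) (c : Option (Fin k)) :
    (∀ j, v (Fin.natAdd N j) = ind c j) ↔ colr v = c := by
  constructor
  · exact colr_of
  · intro h
    obtain ⟨c', -, u, -, rfl⟩ := mem_cay.1 hv
    have h1 : colr (lift c' u) = c' := colr_of (fun j => congrFun (zp_lift c' u) j)
    rw [h1] at h
    subst h
    exact fun j => congrFun (zp_lift c' u) j

theorem cols_eq {φ : Option (Fin k) → Finset (Fin N → ℤ)} {ρ : Finset (Fin (N + k) → ℤ)}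
    (hρ : ρ ⊆ cay φ univ) : cols ρ = ρ.image colr := by
  ext c
  simp only [cols, Finset.mem_filter, Finset.mem_univ, true_and, Finset.mem_image]
  constructor
  · rintro ⟨v, hv, h⟩
    exact ⟨v, hv, (colr_iff (hρ hv) c).1 h⟩
  · rintro ⟨v, hv, h⟩
    exact ⟨v, hv, (colr_iff (hρ hv) c).2 h⟩

open Classical in
theorem complSum (hS : ScaleRel) (h4 : PsiRel) : ComplSum := by
  intro N k A b L b' Z Φ' Φ hT w hw s ρ hρ hρA
  obtain ⟨-, -, -, -, hdisj, hH, -⟩ := hS N k A b L b' Z Φ' Φ hT
  have h4' := h4 N k A b L b' Z Φ' Φ hT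
  -- step 1: exchange the sums
  have step1 : ∑ τ ∈ Compl A Φ ρ, Φ.Rsum (Hset A Z) τ s w =
      ∑ F ∈ Φ.mx.filter (fun F => ρ ⊆ F), ∑ τ ∈ (Compl A Φ ρ).filter (fun τ => τ ⊆ F),
        1 / ((idx (F : Set (Fin (N + k) → ℤ)) : ℝ) * (s + psi (Hset A Z) F w) *
          ∏ u ∈ F \ τ, crd F w u) := by
    simp only [Fan.Rsum]
    rw [Finset.sum_comm' (t' := Φ.mx.filter (fun F => ρ ⊆ F))
      (s' := fun F => (Compl A Φ ρ).filter (fun τ => τ ⊆ F))]
    intro τ F
    simp only [Finset.mem_filter]
    constructor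
    · rintro ⟨h1, h2, h3⟩
      have h5 : ρ ⊆ τ := by
        have := h1
        unfold Compl at this
        exact (Finset.mem_filter.1 this).2.1
      exact ⟨⟨h1, h3⟩, h2, h5.trans h3⟩
    · rintro ⟨⟨h1, h3⟩, h2, -⟩
      exact ⟨h1, h2, h3⟩
  rw [step1, Finset.mul_sum]
  refine Finset.sum_congr rfl fun F hF => ?_
  rw [Finset.mem_filter] at hF
  obtain ⟨hFm, hρF⟩ := hF
  have hgen : ∀ u ∈ F, crd F w u ≠ 0 := fun u hu => hw.1 F hFm u hu
  set V : Finset (Fin (N + k) → ℤ) := F.filter (fun u => u ∈ cay A univ) with hV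
  have hρV : ρ ⊆ V := fun u hu => Finset.mem_filter.2 ⟨hρF hu, hρA hu⟩
  -- step 2: the completions in `F`
  have step2 : (Compl A Φ ρ).filter (fun τ => τ ⊆ F) = V.powerset.filter (fun τ => ρ ⊆ τ ∧
      τ.image colr = univ ∧
        τ.card + (ρ.image colr).card = ρ.card + Fintype.card (Option (Fin k))) := by
    ext τ
    rw [Finset.mem_filter, Finset.mem_filter, Finset.mem_powerset]
    unfold Compl
    rw [Finset.mem_filter, Fintype.card_option, Fintype.card_fin]
    constructor
    · rintro ⟨⟨-, h2, h3, h5, h6⟩, h7⟩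
      refine ⟨fun u hu => Finset.mem_filter.2 ⟨h7 hu, h3 hu⟩, h2, ?_, ?_⟩
      · rw [← cols_eq h3]
        exact h5
      · rw [← cols_eq hρA]
        exact h6
    · rintro ⟨h1, h2, h3, h5⟩
      have h6 : τ ⊆ F := fun u hu => (Finset.mem_filter.1 (h1 hu)).1
      have h7 : τ ⊆ cay A univ := fun u hu => (Finset.mem_filter.1 (h1 hu)).2
      refine ⟨⟨?_, h2, h7, ?_, ?_⟩, h6⟩
      · unfold Fan.faces
        exact Finset.mem_biUnion.2 ⟨F, hFm, Finset.mem_powerset.2 h6⟩
      · rw [cols_eq h7]
        exact h3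
      · rw [cols_eq hρA]
        exact h5
  -- step 3: factor
  have step3 : ∑ τ ∈ (Compl A Φ ρ).filter (fun τ => τ ⊆ F),
        1 / ((idx (F : Set (Fin (N + k) → ℤ)) : ℝ) * (s + psi (Hset A Z) F w) *
          ∏ u ∈ F \ τ, crd F w u) =
      (1 / ((idx (F : Set (Fin (N + k) → ℤ)) : ℝ) * (s + psi (Hset A Z) F w) *
          ∏ u ∈ F \ ρ, crd F w u)) *
        ∑ τ ∈ (Compl A Φ ρ).filter (fun τ => τ ⊆ F), ∏ u ∈ τ \ ρ, crd F w u := by
    rw [Finset.mul_sum]
    refine Finset.sum_congr rfl fun τ hτ => ?_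
    rw [Finset.mem_filter] at hτ
    have h2 : ρ ⊆ τ := by
      have := hτ.1
      unfold Compl at this
      exact (Finset.mem_filter.1 this).2.1
    have h3 : τ ⊆ F := hτ.2
    have h5 : F \ ρ = (F \ τ) ∪ (τ \ ρ) := by
      ext u
      simp only [Finset.mem_sdiff, Finset.mem_union]
      constructor
      · rintro ⟨ha, hb⟩
        by_cases hu : u ∈ τ
        · exact Or.inr ⟨hu, hb⟩
        · exact Or.inl ⟨ha, hu⟩
      · rintro (⟨ha, hb⟩ | ⟨ha, hb⟩)
        · exact ⟨ha, fun h => hb (h2 h)⟩
        · exact ⟨h3 ha, hb⟩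
    have h6 : Disjoint (F \ τ) (τ \ ρ) := by
      rw [Finset.disjoint_left]
      intro u hu hu'
      exact (Finset.mem_sdiff.1 hu).2 (Finset.mem_sdiff.1 hu').1
    rw [h5, Finset.prod_union h6]
    have h7 : ∏ u ∈ τ \ ρ, crd F w u ≠ 0 :=
      Finset.prod_ne_zero_iff.2 fun u hu => hgen u (h3 (Finset.mem_sdiff.1 hu).1)
    have h8 : ∀ X P Q : ℝ, Q ≠ 0 → 1 / (X * P) = 1 / (X * (P * Q)) * Q := by
      intro X P Q hQ
      rw [← mul_assoc, one_div_mul_eq_div]
      conv_rhs => rw [mul_comm (X * P) Q, ← div_div, div_self hQ]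
    exact h8 _ _ _ h7
  rw [step3, step2, sum_completions V ρ hρV colr (crd F w)]
  -- step 4: the factors
  have hvert : F ⊆ cay A univ ∪ Z := by
    rw [← hT.vert]
    exact Φ.mx_sub F hFm
  have hVsome : ∀ j : Fin k, V.filter (fun u => colr u = some j) =
      (F \ Z).filter (fun u => ∀ i, u (Fin.natAdd N i) = ind (some j) i) := by
    intro j
    ext u
    rw [Finset.mem_filter, Finset.mem_filter, Finset.mem_filter, Finset.mem_sdiff]
    constructor
    · rintro ⟨⟨h1, h2⟩, h3⟩
      exact ⟨⟨h1, Finset.disjoint_left.1 hdisj h2⟩, (colr_iff h2 _).2 h3⟩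
    · rintro ⟨⟨h1, h2⟩, h3⟩
      have h5 : u ∈ cay A univ := by
        rcases Finset.mem_union.1 (hvert h1) with h | h
        · exact h
        · exact absurd h h2
      exact ⟨⟨h1, h5⟩, (colr_iff h5 _).1 h3⟩
  have hVnone : V.filter (fun u => colr u = none) = F \ Hset A Z := by
    ext u
    rw [Finset.mem_filter, hV, Finset.mem_filter, Finset.mem_sdiff]
    constructor
    · rintro ⟨⟨h1, h2⟩, h3⟩
      refine ⟨h1, (hH u h2).2 ?_⟩
      intro j
      have := (colr_iff h2 none).2 h3 j
      rw [this]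
      simp [ind]
    · rintro ⟨h1, h2⟩
      have h5 : u ∈ cay A univ := by
        rcases Finset.mem_union.1 (hvert h1) with h | h
        · exact h
        · exact absurd (Finset.mem_union_left _ h) h2
      refine ⟨⟨h1, h5⟩, (colr_iff h5 _).1 ?_⟩
      intro j
      have := (hH u h5).1 h2 j
      rw [this]
      simp [ind]
  have hprod : ∀ g : Option (Fin k) → ℝ, ∏ c ∈ univ \ ρ.image colr, g c =
      (∏ j ∈ univ.filter (fun j : Fin k => some j ∉ cols ρ), g (some j)) *
        (if none ∈ cols ρ then 1 else g none) := by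
    intro g
    rw [cols_eq hρA]
    have h1 : univ \ ρ.image colr = univ.filter (fun c : Option (Fin k) => c ∉ ρ.image colr) := by
      ext c
      simp
    rw [h1, Finset.prod_filter, Fintype.prod_option, Finset.prod_filter, mul_comm]
    congr 1
    by_cases h : none ∈ ρ.image colr
    · rw [if_neg (not_not.2 h), if_pos h]
    · rw [if_pos h, if_neg h]
  rw [hprod, hVnone]
  by_cases hex : ∃ t ∈ A none, lift none t ∈ F
  · have h5 := h4' F hFm hex w
    have h6 : ∀ j, ∑ u ∈ V.filter (fun u => colr u = some j), crd F w u =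
        w (Fin.natAdd N j) := by
      intro j
      rw [hVsome j]
      exact h5.2 j
    simp only [h6]
    rw [psi]
    by_cases hn : none ∈ cols ρ
    · rw [if_pos hn]
      ring
    · rw [if_neg hn]
      ring
  · -- no generator of colour `none`
    have h5 : F \ Hset A Z = ∅ := by
      rw [← hVnone, Finset.filter_eq_empty_iff]
      intro u hu hcu
      rw [hV, Finset.mem_filter] at hu
      obtain ⟨c, -, t, ht, rfl⟩ := mem_cay.1 hu.2
      have h6 : colr (lift c t) = c := colr_of (fun j => congrFun (zp_lift c t) j)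
      rw [h6] at hcu
      subst hcu
      exact hex ⟨t, ht, hu.1⟩
    have h6 : none ∉ cols ρ := by
      intro h
      rw [cols_eq hρA] at h
      obtain ⟨v, hv, hvc⟩ := Finset.mem_image.1 h
      have : v ∈ V.filter (fun u => colr u = none) := Finset.mem_filter.2 ⟨hρV hv, hvc⟩
      rw [hVnone, h5] at this
      exact absurd this (Finset.notMem_empty _)
    rw [if_neg h6, if_neg h6, psi, h5]
    simp

end Mono.CI.S3
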